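import Mathlib
import Pool.Agent.Helper231_PCP.Main

set_option autoImplicit false

/-! # The Post correspondence problem for four pairs of words is undecidable

Hence `PCP(n)` is undecidable for all `n ≥ 4`, so that undecidability of `GPCP(n)` implies that of
`PCP(n+1)` for every `n ≥ 3`, and that of `PCP(n)` for every `n ≥ 4`.

The proof: binary tag systems `b ↦ b`, `c ↦ u` started from the symbol `c` and run until the empty
word are simulated by four pairs of words; every tag system with productions that keep lengths in
balance, hence every register machine, is simulated exactly by such a binary tag system. -/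

namespace Pool.Agent.Results.MP_e4662f_lc.FourPairs

/-- The monoid morphism from the words over `n` letters to the words over `ℕ` which sends the letter
`i` to the word `h i`, applied to the word `w`. -/
def mor {n : ℕ} (h : Fin n → List ℕ) (w : List (Fin n)) : List ℕ := w.flatMap h

/-- Instances of `PCP(n)`: two morphisms, given by the images of the `n` letters. -/
abbrev PInst (n : ℕ) : Type := (Fin n → List ℕ) × (Fin n → List ℕ)

/-- The instance `(h, g)` is positive: `h(w) = g(w)` for some nonempty word `w`. -/
def PCP (n : ℕ) (I : PInst n) : Prop :=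
  ∃ w : List (Fin n), w ≠ [] ∧ mor I.1 w = mor I.2 w

/-- Instances `((h, g), (p₁, p₂), (s₁, s₂))` of `GPCP(n)`. -/
abbrev GInst (n : ℕ) : Type := PInst n × (List ℕ × List ℕ) × (List ℕ × List ℕ)

/-- The instance is positive: `p₁ h(w) s₁ = p₂ g(w) s₂` for some word `w`. -/
def GPCP (n : ℕ) (I : GInst n) : Prop :=
  ∃ w : List (Fin n),
    I.2.1.1 ++ mor I.1.1 w ++ I.2.2.1 = I.2.1.2 ++ mor I.1.2 w ++ I.2.2.2

/-- `PCP(n)` is undecidable for every `n ≥ 4`; hence for every `n ≥ 3` undecidability of `GPCP(n)`
implies undecidability of `PCP(n+1)`, and for every `n ≥ 4` it implies undecidability of `PCP(n)`. -/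
theorem result :
    (∀ n : ℕ, 4 ≤ n → ¬ ComputablePred (PCP n)) ∧
    (∀ n : ℕ, 3 ≤ n → ¬ ComputablePred (GPCP n) → ¬ ComputablePred (PCP (n + 1))) ∧
    (∀ n : ℕ, 4 ≤ n → ¬ ComputablePred (GPCP n) → ¬ ComputablePred (PCP n)) := by
  have h : ∀ n : ℕ, 4 ≤ n → ¬ ComputablePred (PCP n) := fun n hn =>
    Pool.Agent.Helper231_PCP.main n hn
  exact ⟨h, fun n hn _ => h (n + 1) (by omega), fun n hn _ => h n hn⟩

end Pool.Agent.Results.MP_e4662f_lc.FourPairs
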